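import Pool.Agent.R866.Topple.Defs

/-!
# The toppling game: order independence, conservation, the Laplacian
-/

namespace Pool.Agent.R866.Topple

open Finset

variable {V : Type*} [Fintype V] [DecidableEq V] {G : SimpleGraph V} [DecidableRel G.Adj]

lemma fire_cast {c : V → ℕ} {v : V} (h : G.degree v ≤ c v) (w : V) :
    ((fire G c v w : ℕ) : ℤ) = c w + (if G.Adj v w then 1 else 0)
      - (if w = v then (G.degree v : ℤ) else 0) := by
  unfold fire
  by_cases hw : w = v
  · subst hw
    have : ¬ G.Adj w w := G.loopless.irrefl w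
    simp [this]
    omega
  · simp [hw]

/-- topplings of two different ready vertices commute -/
lemma fire_comm {c : V → ℕ} {v w : V} (hvw : v ≠ w) (hv : G.degree v ≤ c v)
    (hw : G.degree w ≤ c w) :
    G.degree w ≤ fire G c v w ∧ G.degree v ≤ fire G c w v ∧
      fire G (fire G c v) w = fire G (fire G c w) v := by
  have h1 : G.degree w ≤ fire G c v w := by
    unfold fire
    have : w ≠ v := hvw.symm
    simp [this]
    omega
  have h2 : G.degree v ≤ fire G c w v := by
    unfold fire
    simp [hvw]
    omega
  refine ⟨h1, h2, ?_⟩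
  funext x
  have e1 := fire_cast h1 x
  have e2 := fire_cast h2 x
  have e3 := fire_cast hv x
  have e4 := fire_cast hw x
  have : ((fire G (fire G c v) w x : ℕ) : ℤ) = (fire G (fire G c w) v x : ℕ) := by
    rw [e1, e2, e3, e4]; ring
  exact_mod_cast this

lemma step_diamond {a b c : V → ℕ} (h1 : Step G a b) (h2 : Step G a c) :
    b = c ∨ ∃ d, Step G b d ∧ Step G c d := by
  obtain ⟨v, hv, rfl⟩ := h1
  obtain ⟨w, hw, rfl⟩ := h2
  by_cases h : v = w
  · left; rw [h]
  · right
    obtain ⟨h3, h4, h5⟩ := fire_comm h hv hw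
    exact ⟨fire G (fire G a v) w, ⟨w, h3, rfl⟩, ⟨v, h4, h5⟩⟩

lemma not_step_of_stable {s t : V → ℕ} (hs : Stable G s) : ¬ Step G s t := by
  rintro ⟨v, hv, -⟩
  exact absurd (hs v) (by omega)

lemma eq_of_stable {s t : V → ℕ} (hs : Stable G s) (h : Relation.ReflTransGen (Step G) s t) :
    s = t := by
  rcases Relation.ReflTransGen.cases_head h with h | ⟨u, hu, -⟩
  · exact h
  · exact absurd hu (not_step_of_stable hs)

/-- **The final configuration of the toppling phase does not depend on the order.** -/
theorem stops_unique {c s t : V → ℕ} (hs : StopsAt G c s) (ht : StopsAt G c t) : s = t := by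
  have key : Relation.Join (Relation.ReflTransGen (Step G)) s t := by
    refine Relation.church_rosser ?_ hs.1 ht.1
    intro a b c hab hac
    rcases step_diamond hab hac with h | ⟨d, hd1, hd2⟩
    · exact ⟨b, Relation.ReflGen.refl, by rw [h]⟩
    · exact ⟨d, Relation.ReflGen.single hd1, Relation.ReflTransGen.single hd2⟩
  obtain ⟨u, hu1, hu2⟩ := key
  rw [eq_of_stable hs.2 hu1, eq_of_stable ht.2 hu2]

/-- `n` legal topplings -/
inductive Steps (G : SimpleGraph V) [DecidableRel G.Adj] : ℕ → (V → ℕ) → (V → ℕ) → Prop
  | refl (c) : Steps G 0 c c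
  | cons {n a b c} : Step G a b → Steps G n b c → Steps G (n + 1) a c

lemma strip {a b : V → ℕ} (h1 : Step G a b) {m : ℕ} {t : V → ℕ} (h : Steps G m a t) :
    ∃ m' t', m ≤ m' + 1 ∧ Steps G m' b t' := by
  induction m generalizing a b with
  | zero => exact ⟨0, b, by omega, Steps.refl b⟩
  | succ m ih =>
    cases h with
    | cons hs hr =>
      rename_i u
      rcases step_diamond h1 hs with h | ⟨d, hd1, hd2⟩
      · subst h
        exact ⟨m, t, by omega, hr⟩
      · obtain ⟨m', t', hm, ht⟩ := ih hd2 hr
        exact ⟨m' + 1, t', by omega, Steps.cons hd1 ht⟩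

lemma steps_of_rtg {c s : V → ℕ} (h : Relation.ReflTransGen (Step G) c s) :
    ∃ n, Steps G n c s := by
  induction h using Relation.ReflTransGen.head_induction_on with
  | refl => exact ⟨0, Steps.refl _⟩
  | head h1 _ ih =>
    obtain ⟨n, hn⟩ := ih
    exact ⟨n + 1, Steps.cons h1 hn⟩

lemma steps_bounded {n : ℕ} {c s : V → ℕ} (h : Steps G n c s) (hs : Stable G s) :
    ∀ m t, Steps G m c t → m ≤ n := by
  induction n generalizing c with
  | zero =>
    intro m t hm
    cases h
    cases hm with
    | refl => exact le_refl _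
    | cons h1 _ => exact absurd h1 (not_step_of_stable hs)
  | succ n ih =>
    intro m t hm
    cases h with
    | cons h1 h2 =>
      obtain ⟨m', t', h3, h4⟩ := strip h1 hm
      have := ih h2 m' t' h4
      omega

/-- **If the toppling phase can stop, it stops for every order of the topplings.** -/
theorem no_infinite {c s : V → ℕ} (hs : StopsAt G c s) :
    ¬ ∃ f : ℕ → (V → ℕ), f 0 = c ∧ ∀ i, Step G (f i) (f (i + 1)) := by
  rintro ⟨f, hf0, hf⟩
  obtain ⟨n, hn⟩ := steps_of_rtg hs.1
  have h : ∀ m i, Steps G m (f i) (f (i + m)) := by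
    intro m
    induction m with
    | zero => intro i; exact Steps.refl _
    | succ m ih =>
      intro i
      have := ih (i + 1)
      have h2 : i + 1 + m = i + (m + 1) := by omega
      rw [h2] at this
      exact Steps.cons (hf i) this
  have := steps_bounded hn hs.2 (n + 1) (f (0 + (n + 1))) (by rw [← hf0]; exact h (n + 1) 0)
  omega

/-- the effect of a sequence of topplings: the Laplacian of the toppling numbers -/
lemma exists_counts {c s : V → ℕ} (h : Relation.ReflTransGen (Step G) c s) :
    ∃ x : V → ℤ, ∀ w, (s w : ℤ) = c w + ∑ v, (if G.Adj w v then (x v - x w) else 0) := by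
  induction h with
  | refl => exact ⟨0, fun w => by simp⟩
  | tail _ h2 ih =>
    obtain ⟨x, hx⟩ := ih
    obtain ⟨v, hv, rfl⟩ := h2
    refine ⟨x + Pi.single v 1, fun w => ?_⟩
    rw [fire_cast hv w, hx w]
    have e : ∀ u, (if G.Adj w u then ((x + Pi.single v 1 : V → ℤ) u
        - (x + Pi.single v 1 : V → ℤ) w) else 0) =
        (if G.Adj w u then (x u - x w) else 0) +
        ((if G.Adj w u then (Pi.single v (1 : ℤ) : V → ℤ) u else 0)
          - (if G.Adj w u then (Pi.single v (1 : ℤ) : V → ℤ) w else 0)) := by
      intro u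
      split_ifs
      · simp only [Pi.add_apply]; ring
      · simp
    rw [Finset.sum_congr rfl (fun u _ => e u), Finset.sum_add_distrib, Finset.sum_sub_distrib]
    have e1 : ∑ u, (if G.Adj w u then (Pi.single v (1 : ℤ) : V → ℤ) u else 0) =
        (if G.Adj v w then 1 else 0) := by
      rw [Finset.sum_eq_single v]
      · simp [G.adj_comm]
      · intro b _ hb; simp [hb]
      · intro h; exact absurd (Finset.mem_univ v) h
    have e2 : ∑ u, (if G.Adj w u then (Pi.single v (1 : ℤ) : V → ℤ) w else 0) =
        (if w = v then (G.degree v : ℤ) else 0) := by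
      rw [← Finset.sum_filter, Finset.sum_const]
      by_cases hwv : w = v
      · subst hwv
        simp only [Pi.single_eq_same, if_true, nsmul_eq_mul, mul_one]
        rw [← G.card_neighborFinset_eq_degree w]
        congr 2
        ext u; simp
      · simp [hwv]
    rw [e1, e2]
    ring

lemma sum_eq_of_steps {c s : V → ℕ} (h : Relation.ReflTransGen (Step G) c s) :
    ∑ w, s w = ∑ w, c w := by
  obtain ⟨x, hx⟩ := exists_counts h
  have h1 : (∑ w, (s w : ℤ)) = ∑ w, (c w : ℤ) +
      ∑ w, ∑ v, (if G.Adj w v then (x v - x w) else 0) := by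
    rw [← Finset.sum_add_distrib]
    exact Finset.sum_congr rfl (fun w _ => hx w)
  have h2 : ∑ w, ∑ v, (if G.Adj w v then (x v - x w) else 0) = 0 := by
    have h3 : ∑ w, ∑ v, (if G.Adj w v then (x v - x w) else 0) =
        - ∑ w, ∑ v, (if G.Adj w v then (x v - x w) else 0) := by
      calc ∑ w, ∑ v, (if G.Adj w v then (x v - x w) else 0)
          = ∑ v, ∑ w, (if G.Adj w v then (x v - x w) else 0) := Finset.sum_comm
        _ = ∑ v, ∑ w, -(if G.Adj v w then (x w - x v) else 0) := by
            refine Finset.sum_congr rfl (fun v _ => Finset.sum_congr rfl (fun w _ => ?_))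
            by_cases h : G.Adj v w
            · rw [if_pos h, if_pos h.symm]; ring
            · rw [if_neg h, if_neg (fun h' => h h'.symm)]; ring
        _ = - ∑ w, ∑ v, (if G.Adj w v then (x v - x w) else 0) := by
            simp only [Finset.sum_neg_distrib]
    omega
  rw [h2, add_zero] at h1
  exact_mod_cast h1

end Pool.Agent.R866.Topple
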