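import Mathlib

/-!
# The toppling game on a finite graph (MP_424b19_co): definitions
-/

namespace Pool.Agent.R866.Topple

variable {V : Type*} [Fintype V] [DecidableEq V] (G : SimpleGraph V) [DecidableRel G.Adj]

/-- The configuration obtained from `c` by toppling `v`: the vertex `v` loses `deg v` tokens and
each neighbour of `v` gets one of them. -/
def fire (c : V → ℕ) (v : V) : V → ℕ :=
  fun w => c w + (if G.Adj v w then 1 else 0) - (if w = v then G.degree v else 0)

/-- One legal toppling: `v` is ready (it holds at least `deg v` tokens) and is toppled. -/
def Step (c c' : V → ℕ) : Prop := ∃ v, G.degree v ≤ c v ∧ c' = fire G c v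

/-- No vertex is ready. -/
def Stable (c : V → ℕ) : Prop := ∀ v, c v < G.degree v

/-- The toppling phase started in `c` stops in the configuration `s`: some sequence of legal
topplings leads from `c` to `s` and no vertex of `s` is ready.  (The order of the topplings does
not matter, see `stops_unique` and `no_infinite`.) -/
def StopsAt (c s : V → ℕ) : Prop := Relation.ReflTransGen (Step G) c s ∧ Stable G s

/-- `Lasts G k maxToMove c`: in the toppling game in position `c`, with Max to move if
`maxToMove = true` and Min to move otherwise, Max can ensure that at least `k` more turns are
played.  On a turn a token is put on a vertex `v`; if `k + 1` turns are asked for and `k ≠ 0`, the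
toppling phase has to stop (in a configuration `s`) and Max has to be able to ensure `k` further
turns from `s`, the other player being to move. -/
def Lasts : ℕ → Bool → (V → ℕ) → Prop
  | 0, _, _ => True
  | k + 1, true, c => ∃ v : V, k = 0 ∨ ∃ s, StopsAt G (c + Pi.single v 1) s ∧ Lasts k false s
  | k + 1, false, c => ∀ v : V, k = 0 ∨ ∃ s, StopsAt G (c + Pi.single v 1) s ∧ Lasts k true s

/-- `Ends G k maxToMove c`: in position `c` (Max to move if `maxToMove = true`, Min to move
otherwise) Min can ensure that at most `k` more turns are played.  (The turn after which the
toppling phase never stops is the last one.) -/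
def Ends : ℕ → Bool → (V → ℕ) → Prop
  | 0, _, _ => False
  | k + 1, true, c => ∀ v : V, (¬ ∃ s, StopsAt G (c + Pi.single v 1) s) ∨
      ∃ s, StopsAt G (c + Pi.single v 1) s ∧ Ends k false s
  | k + 1, false, c => ∃ v : V, (¬ ∃ s, StopsAt G (c + Pi.single v 1) s) ∨
      ∃ s, StopsAt G (c + Pi.single v 1) s ∧ Ends k true s

/-- The Max-start value of the toppling game: the largest number `k` of turns such that Max can
ensure that at least `k` turns are played, Max starting from the configuration without tokens. -/
noncomputable def Tmax : ℕ := sSup {k | Lasts G k true 0}

/-- The Min-start value of the toppling game. -/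
noncomputable def Tmin : ℕ := sSup {k | Lasts G k false 0}

end Pool.Agent.R866.Topple
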