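import Pool.Agent.R866.Topple.Basic

/-!
# The toppling game: Min always makes the last move on a graph with a cycle
-/

namespace Pool.Agent.R866.Topple

open Finset

variable {V : Type*} [Fintype V] [DecidableEq V] {G : SimpleGraph V} [DecidableRel G.Adj]

/-- If `ab` is an edge which is not a bridge, the divisor `a - b` is not principal. -/
lemma no_potential {a b : V} (hab : G.Adj a b)
    (hnb : (G \ SimpleGraph.fromEdgeSet {s(a, b)}).Reachable a b) :
    ¬ ∃ y : V → ℤ, ∀ w, ∑ v, (if G.Adj w v then (y v - y w) else 0) =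
      (if w = a then 1 else 0) - (if w = b then 1 else 0) := by
  rintro ⟨y, hy⟩
  have hne : a ≠ b := hab.ne
  set g : V × V → ℤ := fun p => if G.Adj p.1 p.2 then (y p.2 - y p.1) ^ 2 else 0 with hg
  have hg0 : ∀ p, 0 ≤ g p := by
    intro p; simp only [hg]; split_ifs
    · positivity
    · exact le_refl _
  have hE : ∑ p, g p = 2 * (y b - y a) := by
    have h1 : ∑ w, y w * ∑ v, (if G.Adj w v then (y v - y w) else 0) = y a - y b := by
      rw [Finset.sum_congr rfl (fun w _ => by rw [hy w])]
      simp only [mul_sub, mul_ite, mul_one, mul_zero, Finset.sum_sub_distrib]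
      simp
    have h2 : ∑ w, y w * ∑ v, (if G.Adj w v then (y v - y w) else 0) =
        ∑ w, ∑ v, (if G.Adj w v then y w * (y v - y w) else 0) := by
      refine Finset.sum_congr rfl (fun w _ => ?_)
      rw [Finset.mul_sum]
      refine Finset.sum_congr rfl (fun v _ => ?_)
      rw [mul_ite, mul_zero]
    have h3 : ∑ w, ∑ v, (if G.Adj w v then y w * (y v - y w) else 0) =
        ∑ w, ∑ v, (if G.Adj w v then y v * (y w - y v) else 0) := by
      rw [Finset.sum_comm]
      refine Finset.sum_congr rfl (fun v _ => Finset.sum_congr rfl (fun w _ => ?_))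
      by_cases h : G.Adj w v
      · rw [if_pos h, if_pos h.symm]
      · rw [if_neg h, if_neg (fun h' => h h'.symm)]
    have h4 : ∑ p, g p = ∑ w, ∑ v, g (w, v) := by
      rw [← Finset.univ_product_univ, Finset.sum_product]
    have h5 : ∑ w, ∑ v, g (w, v) + ∑ w, ∑ v, (if G.Adj w v then y w * (y v - y w) else 0) +
        ∑ w, ∑ v, (if G.Adj w v then y v * (y w - y v) else 0) = 0 := by
      rw [← Finset.sum_add_distrib, ← Finset.sum_add_distrib]
      refine Finset.sum_eq_zero (fun w _ => ?_)
      rw [← Finset.sum_add_distrib, ← Finset.sum_add_distrib]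
      refine Finset.sum_eq_zero (fun v _ => ?_)
      simp only [hg]
      split_ifs
      · ring
      · ring
    rw [← h3, ← h2, h1] at h5
    rw [h4]; linarith
  by_cases hd : y a = y b
  · -- the energy vanishes
    have hz : ∑ p, g p = 0 := by rw [hE, hd]; ring
    have hall := (Finset.sum_eq_zero_iff_of_nonneg (fun p _ => hg0 p)).1 hz
    have h1 := hy a
    have h2 : ∑ v, (if G.Adj a v then (y v - y a) else 0) = 0 := by
      refine Finset.sum_eq_zero (fun v _ => ?_)
      split_ifs with h
      · have := hall (a, v) (Finset.mem_univ _)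
        simp only [hg, if_pos h] at this
        exact pow_eq_zero_iff (two_ne_zero) |>.1 this
      · rfl
    rw [h2] at h1
    simp [hne] at h1
  · -- some edge different from `ab` carries a nonzero difference
    have hex : ∃ w v, (G \ SimpleGraph.fromEdgeSet {s(a, b)}).Adj w v ∧ y w ≠ y v := by
      by_contra hcon
      push Not at hcon
      obtain ⟨p⟩ := hnb
      have : ∀ (u v : V) (p : (G \ SimpleGraph.fromEdgeSet {s(a, b)}).Walk u v), y u = y v := by
        intro u v p
        induction p with
        | nil => rfl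
        | cons h _ ih => rw [hcon _ _ h, ih]
      exact hd (this a b p)
    obtain ⟨w, v, hwv, hne2⟩ := hex
    rw [SimpleGraph.sdiff_adj, SimpleGraph.fromEdgeSet_adj] at hwv
    obtain ⟨hwv1, hwv2⟩ := hwv
    have hwv3 : s(w, v) ≠ s(a, b) := by
      intro h; exact hwv2 ⟨by simpa using h, hwv1.ne⟩
    have d1 : (a, b) ≠ (b, a) := by
      intro h; exact hne (Prod.mk.inj h).1
    have d2 : (a, b) ≠ (w, v) := by
      intro h; obtain ⟨h1, h2⟩ := Prod.mk.inj h; exact hwv3 (by rw [h1, h2])
    have d3 : (b, a) ≠ (w, v) := by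
      intro h; obtain ⟨h1, h2⟩ := Prod.mk.inj h; exact hwv3 (by rw [← h1, ← h2, Sym2.eq_swap])
    have hle : ∑ p ∈ ({(a, b), (b, a), (w, v)} : Finset (V × V)), g p ≤ ∑ p, g p :=
      Finset.sum_le_sum_of_subset_of_nonneg (Finset.subset_univ _) (fun p _ _ => hg0 p)
    rw [Finset.sum_insert (by simp [d1, d2]), Finset.sum_insert (by simp [d3]),
      Finset.sum_singleton, hE] at hle
    simp only [hg, if_pos hab, if_pos hab.symm, if_pos hwv1] at hle
    have h1 : 1 ≤ (y v - y w) ^ 2 := by
      have : y v - y w ≠ 0 := by intro h; apply hne2; linarith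
      have : 0 < (y v - y w) ^ 2 := by positivity
      linarith
    nlinarith [sq_nonneg (y b - y a), sq_nonneg (y b - y a - 1)]

/-- a graph with a cycle has an edge which is not a bridge -/
lemma exists_nonbridge (hconn : G.Connected) (ht : ¬ G.IsTree) :
    ∃ a b, G.Adj a b ∧ (G \ SimpleGraph.fromEdgeSet {s(a, b)}).Reachable a b := by
  have h1 : ¬ G.IsAcyclic := fun h => ht ⟨hconn, h⟩
  rw [SimpleGraph.isAcyclic_iff_forall_adj_isBridge] at h1
  push Not at h1
  obtain ⟨a, b, hab, hb⟩ := h1
  refine ⟨a, b, hab, ?_⟩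
  rw [SimpleGraph.isBridge_iff] at hb
  by_contra hcon
  exact hb (by first | exact ⟨hab, hcon⟩ | exact hcon)

lemma sum_add_single (c : V → ℕ) (u : V) : ∑ w, (c + Pi.single u 1 : V → ℕ) w = ∑ w, c w + 1 := by
  simp only [Pi.add_apply, Finset.sum_add_distrib]
  congr 1
  rw [Finset.sum_eq_single u]
  · simp
  · intro b _ hb; simp [hb]
  · intro h; exact absurd (Finset.mem_univ u) h

lemma le_of_stable {c : V → ℕ} (hc : Stable G c) (v : V) : c v ≤ G.degree v - 1 := by
  have := hc v; omega

lemma sum_le_of_stable {c : V → ℕ} (hc : Stable G c) :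
    ∑ v, c v ≤ ∑ v, (G.degree v - 1) :=
  Finset.sum_le_sum (fun v _ => le_of_stable hc v)

lemma eq_full {c : V → ℕ} (hc : Stable G c) (hs : ∑ v, c v = ∑ v, (G.degree v - 1)) (v : V) :
    c v = G.degree v - 1 :=
  (Finset.sum_eq_sum_iff_of_le (fun v _ => le_of_stable hc v)).1 hs v (Finset.mem_univ v)

/-- In a connected graph which is not a tree: with one token less than the maximum, some move
makes the toppling phase endless. -/
lemma exists_ending (hconn : G.Connected) (ht : ¬ G.IsTree) {c : V → ℕ} 
    (hs : ∑ v, c v + 1 = ∑ v, (G.degree v - 1)) :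
    ∃ u, ¬ ∃ s, StopsAt G (c + Pi.single u 1) s := by
  obtain ⟨a, b, hab, hnb⟩ := exists_nonbridge hconn ht
  by_contra hcon
  push Not at hcon
  obtain ⟨s, hs1⟩ := hcon a
  obtain ⟨t, ht1⟩ := hcon b
  have e1 : ∀ v, s v = G.degree v - 1 := by
    apply eq_full hs1.2
    rw [sum_eq_of_steps hs1.1, sum_add_single, hs]
  have e2 : ∀ v, t v = G.degree v - 1 := by
    apply eq_full ht1.2
    rw [sum_eq_of_steps ht1.1, sum_add_single, hs]
  obtain ⟨x, hx⟩ := exists_counts hs1.1
  obtain ⟨z, hz⟩ := exists_counts ht1.1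
  refine no_potential hab hnb ⟨z - x, fun w => ?_⟩
  have h1 := hx w
  have h2 := hz w
  rw [e1 w] at h1
  rw [e2 w] at h2
  have h3 : ∑ v, (if G.Adj w v then ((z - x) v - (z - x) w) else 0) =
      ∑ v, (if G.Adj w v then (z v - z w) else 0) -
        ∑ v, (if G.Adj w v then (x v - x w) else 0) := by
    rw [← Finset.sum_sub_distrib]
    refine Finset.sum_congr rfl (fun v _ => ?_)
    split_ifs
    · simp only [Pi.sub_apply]; ring
    · ring
  rw [h3]
  have h4 : (((c + Pi.single a 1 : V → ℕ) w : ℕ) : ℤ) = c w + (if w = a then 1 else 0) := by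
    simp only [Pi.add_apply, Pi.single_apply]; push_cast; split_ifs <;> simp
  have h5 : (((c + Pi.single b 1 : V → ℕ) w : ℕ) : ℤ) = c w + (if w = b then 1 else 0) := by
    simp only [Pi.add_apply, Pi.single_apply]; push_cast; split_ifs <;> simp
  rw [h4] at h1
  rw [h5] at h2
  linarith

lemma exists_quiet {c : V → ℕ} (hc : Stable G c) (hne : c ≠ fun v => G.degree v - 1) :
    ∃ v, StopsAt G (c + Pi.single v 1) (c + Pi.single v 1) := by
  have : ∃ v, c v ≠ G.degree v - 1 := by
    by_contra hcon
    push Not at hcon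
    exact hne (funext hcon)
  obtain ⟨v, hv⟩ := this
  refine ⟨v, Relation.ReflTransGen.refl, fun u => ?_⟩
  have h1 := hc u
  by_cases huv : u = v
  · subst huv
    simp only [Pi.add_apply, Pi.single_eq_same]
    have := hc u
    omega
  · simp [huv, h1]

/-- parity: in a position different from the full one, Max to move, the remaining number of turns
is even; with Min to move it is odd -/
lemma parity (hconn : G.Connected) (ht : ¬ G.IsTree) (k : ℕ) :
    (∀ c, Stable G c → (c ≠ fun v => G.degree v - 1) → Lasts G (2 * k + 1) true c →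
      Lasts G (2 * k + 2) true c) ∧
    (∀ c, Stable G c → Lasts G (2 * k) false c → Lasts G (2 * k + 1) false c) := by
  induction k with
  | zero =>
    refine ⟨fun c hc hne _ => ?_, fun c _ _ => ?_⟩
    · obtain ⟨v, hv⟩ := exists_quiet hc hne
      refine ⟨v, Or.inr ⟨_, hv, ?_⟩⟩
      intro w
      exact Or.inl rfl
    · intro w
      exact Or.inl rfl
  | succ k ih =>
    have hQ : ∀ c, Stable G c → Lasts G (2 * (k + 1)) false c →
        Lasts G (2 * (k + 1) + 1) false c := by
      intro c hc hL v
      have hL' : Lasts G ((2 * k + 1) + 1) false c := hL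
      rcases hL' v with h | ⟨s, hs, hLs⟩
      · omega
      · refine Or.inr ⟨s, hs, ?_⟩
        refine ih.1 s hs.2 ?_ hLs
        intro hfull
        have h1 : ∑ v, s v = ∑ v, c v + 1 := by
          rw [sum_eq_of_steps hs.1, sum_add_single]
        have h2 : ∑ v, c v + 1 = ∑ v, (G.degree v - 1) := by
          rw [← h1, hfull]
        obtain ⟨u, hu⟩ := exists_ending hconn ht h2
        rcases hL' u with h | ⟨s', hs', -⟩
        · omega
        · exact hu ⟨s', hs'⟩
    refine ⟨fun c hc hne hL => ?_, hQ⟩
    have hL' : Lasts G ((2 * k + 2) + 1) true c := hL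
    obtain ⟨v, h | ⟨s, hs, hLs⟩⟩ := hL'
    · omega
    · exact ⟨v, Or.inr ⟨s, hs, hQ s hs.2 hLs⟩⟩

lemma lasts_bound [Nonempty V] (k : ℕ) : ∀ (b : Bool) (c : V → ℕ), Stable G c → Lasts G k b c →
    k + ∑ v, c v ≤ ∑ v, (G.degree v - 1) + 1 := by
  induction k with
  | zero =>
    intro b c hc _
    have := sum_le_of_stable hc
    omega
  | succ k ih =>
    intro b c hc hL
    have key : ∃ v : V, k = 0 ∨ ∃ s, StopsAt G (c + Pi.single v 1) s ∧ Lasts G k (!b) s := by
      cases b with
      | true => exact hL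
      | false => exact ⟨Classical.arbitrary V, hL _⟩
    obtain ⟨v, h | ⟨s, hs, hLs⟩⟩ := key
    · have := sum_le_of_stable hc
      omega
    · have h1 := ih (!b) s hs.2 hLs
      have h2 : ∑ v, s v = ∑ v, c v + 1 := by
        rw [sum_eq_of_steps hs.1, sum_add_single]
      omega

lemma isGreatest_sSup [Nonempty V] (b : Bool) (h0 : Stable G (0 : V → ℕ)) :
    IsGreatest {k | Lasts G k b (0 : V → ℕ)} (sSup {k | Lasts G k b (0 : V → ℕ)}) := by
  have hbdd : BddAbove {k | Lasts G k b (0 : V → ℕ)} := by
    refine ⟨∑ v, (G.degree v - 1) + 1, fun k hk => ?_⟩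
    have := lasts_bound k b 0 h0 hk
    omega
  have hne : ({k | Lasts G k b (0 : V → ℕ)}).Nonempty := ⟨0, by cases b <;> trivial⟩
  exact ⟨Nat.sSup_mem hne hbdd, fun k hk => le_csSup hbdd hk⟩

/-- determinacy: Min can ensure at most `k` turns iff Max cannot ensure `k + 1` turns -/
lemma ends_iff [Nonempty V] (k : ℕ) : ∀ (b : Bool) (c : V → ℕ),
    Ends G k b c ↔ ¬ Lasts G (k + 1) b c := by
  induction k with
  | zero =>
    intro b c
    cases b with
    | true =>
      exact ⟨fun h => h.elim, fun h => h ⟨Classical.arbitrary V, Or.inl rfl⟩⟩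
    | false =>
      exact ⟨fun h => h.elim, fun h => h (fun v => Or.inl rfl)⟩
  | succ k ih =>
    have key : ∀ (b : Bool) (c : V → ℕ), ((¬ ∃ s, StopsAt G c s) ∨
        ∃ s, StopsAt G c s ∧ Ends G k b s) ↔
        ¬ (k + 1 = 0 ∨ ∃ s, StopsAt G c s ∧ Lasts G (k + 1) b s) := by
      intro b c
      constructor
      · rintro (h | ⟨s, hs, hE⟩) (h' | ⟨t, ht, hL⟩)
        · omega
        · exact h ⟨t, ht⟩
        · omega
        · have := stops_unique hs ht
          subst this
          exact (ih b s).1 hE hL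
      · intro h
        by_cases hs : ∃ s, StopsAt G c s
        · obtain ⟨s, hs⟩ := hs
          refine Or.inr ⟨s, hs, (ih b s).2 (fun hL => h (Or.inr ⟨s, hs, hL⟩))⟩
        · exact Or.inl hs
    intro b c
    cases b with
    | true =>
      constructor
      · rintro h ⟨v, hv⟩
        exact (key false _).1 (h v) hv
      · intro h v
        exact (key false _).2 (fun hv => h ⟨v, hv⟩)
    | false =>
      constructor
      · rintro ⟨v, hv⟩ h
        exact (key true _).1 hv (h v)
      · intro h
        by_contra hcon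
        apply h
        intro v
        by_contra hv
        exact hcon ⟨v, (key true _).2 hv⟩

end Pool.Agent.R866.Topple
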